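import Pool.Agent.TH30.GD.Gamma

/-!
# The Gross-Deligne relation for all Hodge structures of abelian type

`F` is a number field in the field of the `d`-th roots of unity, `φ` the restriction of Galois
automorphisms from `(ℤ/d)ˣ` onto the embeddings of `F` (`IsCyc`). `line b Q p` is the motive of rank
one over `F` with periods `Q σ` and Hodge types `p σ`: the realisations of an admissible triple, in
the Betti coordinates given by a basis `b` of `F` and the de Rham basis of the eigenvectors.

`𝓜` is a class of motives over the algebraic numbers, closed under tensor products and duals, on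
which Hodge classes have algebraic de Rham coordinates (`IsTensorClass`: the motives of abelian
type, by Deligne and André). `KoblitzOgus` and `Anderson` are the two theorems listed in the
problem. Then the Gross-Deligne relation holds for every admissible triple in the class, of every
weight.
-/

set_option autoImplicit false

namespace Pool.Agent.Results.MP_b23d8d_ag.AbelianType

open Pool.Agent.TH30.PD Pool.Agent.TH30.GD

variable {F : Type} [Field F] [NumberField F]

/-- The theorem of Koblitz and Ogus: if `∑ ε(a)⟨λ a⟩ = 0` for all units `λ`, the products of values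
of the gamma function are algebraic. -/
def KoblitzOgus (d : ℕ) : Prop :=
  ∀ ε : ZMod d → ℚ, Exps d ε (fun _ => 0) → ∀ u, IsAlgebraic ℚ ((gammaProd d ε u : ℝ) : ℂ)

/-- The theorem of Anderson: for every CM type `χ` of `F` the class contains a motive of rank one
over `F` of type `χ` (the `H¹` of an abelian variety with complex multiplication by `F` of this
type) which satisfies the Gross-Deligne relation. -/
def Anderson (𝓜 : Obj → Prop) (d : ℕ) (φ : (ZMod d)ˣ → (F →ₐ[ℚ] ℂ))
    (b : Module.Basis (F →ₐ[ℚ] ℂ) ℚ F) : Prop :=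
  ∀ χ : (F →ₐ[ℚ] ℂ) → ℤ, IsCMType χ → ∃ (Q : (F →ₐ[ℚ] ℂ) → ℂ) (ε : ZMod d → ℚ),
    (∀ σ, Q σ ≠ 0) ∧ 𝓜 (line b Q χ) ∧ Exps d ε (fun u => χ (φ u)) ∧
      ∀ u, Sim (Q (φ u)) (gammaProd d ε u)

theorem result {𝓜 : Obj → Prop} (h𝓜 : IsTensorClass 𝓜) {d : ℕ} [NeZero d] (hKO : KoblitzOgus d)
    {φ : (ZMod d)ˣ → (F →ₐ[ℚ] ℂ)} (hφ : Function.Surjective φ) (hc : IsCyc d φ)
    (b : Module.Basis (F →ₐ[ℚ] ℂ) ℚ F) (hA : Anderson 𝓜 d φ b)
    (Q : (F →ₐ[ℚ] ℂ) → ℂ) (p : (F →ₐ[ℚ] ℂ) → ℤ) (m : ℤ) (hH : 𝓜 (line b Q p))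
    (hp : ∀ σ, p σ + p (conjE σ) = m) (ε : ZMod d → ℚ) (hε : Exps d ε (fun u => p (φ u)))
    (u : (ZMod d)ˣ) : Sim (Q (φ u)) (gammaProd d ε u) :=
  gross_deligne h𝓜 hKO b hφ hc hA Q p m hH hp ε hε u

end Pool.Agent.Results.MP_b23d8d_ag.AbelianType
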